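import Pool.Agent.Q280.SI.Popp

/-!
# Popescu's conjecture for higher order Stark evaluators, up to a positive multiple
-/

set_option autoImplicit false

namespace Pool.Agent.Results.MP_1322f0_nt.MultipleInPopescuLattice

open NumberField Pool.Agent.Q20.SI Pool.Agent.Q280.SI

/-- **Theorem.** (1) Let `K/F` be an abelian extension, `S`, `v_1, …, v_r` as in Popescu's conjecture. A
positive multiple of the evaluator `η'` lies in Popescu's lattice `Λ` if and only if for all characters
`χ ≠ 1` in `Ĝ'` the defects of Stark's equality satisfy `d_σ(χη) d_σ(χ|F₁) d_σ(χ|F₂) = d_σ(χ|F₃)`, for a
quadratic character `η` with `χη = -1` at the complex conjugations and characters `χ|F_i` which are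
unramified at all finite places (if `χ = -1` at the complex conjugations, `η = 1` and Stark's equality
for `χ` are possible instead).
(2) This holds for all data over `F` if the rational form of Rubin's conjecture holds for the cyclic
extensions of finite extensions of `F` which are unramified at all finite places, and for the cyclic
extensions of `F` and `r` = the number of complex places of `F`, the smallest possible value (for totally
real `F` the theorem of Siegel and Klingen). -/
theorem result (F K : Type) [Field F] [NumberField F] [Field K] [NumberField K] [Algebra F K]
    [IsGalois F K] (D : PopData F K) :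
    (PopQ1 D ↔ ∀ χ : (K ≃ₐ[F] K) →* ℂˣ, D.Exact χ → (∃ g, χ g ≠ 1) → RelG χ) ∧
      (UnramifiedCase F → MinimalCase F → PopQ1 D) :=
  ⟨pop_rel D, pop_red D⟩

end Pool.Agent.Results.MP_1322f0_nt.MultipleInPopescuLattice
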