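import Pool.Agent.Q280.SI.Spop

/-!
# Popescu's conjecture on evaluators, up to a positive multiple: special extensions
-/

set_option autoImplicit false

namespace Pool.Agent.Results.MP_1322f0_nt.OnePrimeSuffices

open NumberField Pool.Agent.Q20.SI Pool.Agent.Q280.SI

/-- **Theorem.** Let `Q` be a finite set of prime numbers. A positive multiple of the evaluator `η'` lies in
Popescu's lattice `Λ` for all data if and only if this is true for the cyclic extensions `L/E` of degree
greater than `1`, `S` = the archimedean places, the ramified primes and at most one further prime, and
`v_1, …, v_r` all places in `S` which split completely, such that (a) `E` is totally complex and all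
ramified primes lie above one prime number (and the primes above the other elements of `Q` split
completely), or (b) `E` is totally complex and the degree is a power of an odd prime, or (c) the degree is
a power of `2` and `L` is totally complex or unramified over `E` at all primes. -/
theorem result (Q : Finset ℕ) (hQ : ∀ q ∈ Q, q.Prime) :
    (∀ (F K : Type) [Field F] [NumberField F] [Field K] [NumberField K] [Algebra F K]
      [IsGalois F K] (D : PopData F K), PopQ1 D) ↔ SpecialPop Q :=
  special_pop hQ

end Pool.Agent.Results.MP_1322f0_nt.OnePrimeSuffices
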